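import Pool.Agent.K6.H5.Rz.Ambient
import Pool.Agent.K6.H5.Rz.Forced

/-!
# Rapid Raisonnier filters do not give dominating reals

The statement (R), that all Raisonnier filters `F(2^ω ∩ L[a])` are rapid, does not imply the
statement (D), that for all `a` there is a real dominating over `L[a]`. A negative answer to Q1.

* (A) There is a ccc notion of forcing `P` all of whose conditions force the sentence
  `PhiHolds P (ℕ → ℕ)`: no function dominates all ground model functions, and every family of
  reals indexed by the ground model functions is captured, for every function `f`, by one slalom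
  with at most `n` strings of length `f n` for all `n`.
* (B) This implies, in ZFC, the statement (R) and the failure of (D), if `Lc a`
  (which stands for the set of all functions of `L[a]`) is an image of the ground model set of
  functions for all `a`, and contains the ground model functions `G k` for some `a`.

If the ground model is `L` then the set `K` of the ground model functions has
size `ℵ₁` in the ground model and in the extension by `P`, as all sets `L[a] ∩ ω^ω`, and all these
sets contain `K`. So (R) holds and (D) fails (for `a = 0`) in the extension of `L` by `P`.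

The notion of forcing is a finite support iteration of length `𝔠⁺` of posets whose conditions are
finite approximations of a slalom, together with at most as many promises as the slalom has
levels.
-/

set_option autoImplicit false

namespace Pool.Agent.Results.MP_0d94a4_lc.RapidNotDominating

open Pool.Agent.K6.H5.Rz

/-- (A) Some ccc notion of forcing forces that no function dominates all ground model
functions and that all families of reals indexed by the ground model functions are captured by
slaloms. (B) If no function dominates the family `G` indexed by `K` and all families of reals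
indexed by `K` are captured by slaloms, and if `Lc` assigns a set of functions to every function
such that all these sets are images of `K` and one of them contains all functions `G k`, then
all Raisonnier filters `F(2^ω ∩ Lc a)` are rapid, but for some `a` no function dominates all
members of `Lc a`. -/
theorem result :
    (∃ (P : Type) (_ : Preorder P), Nonempty P ∧
      (∀ A : Set P, (∀ p ∈ A, ∀ q ∈ A, p ≠ q → ¬ ∃ r, r ≤ p ∧ r ≤ q) → A.Countable) ∧
      ∀ p : P, p ∈ PhiHolds P (ℕ → ℕ)) ∧
    (∀ (K : Type) (G : K → ℕ → ℕ),
      (∀ d : ℕ → ℕ, ∃ k, ∀ N, ∃ n, N ≤ n ∧ d n < G k n) → AllSlalom K →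
      ∀ Lc : (ℕ → ℕ) → Set (ℕ → ℕ), (∀ a, ∃ h : K → ℕ → ℕ, Lc a ⊆ Set.range h) →
        (∃ a, ∀ k, G k ∈ Lc a) →
        (∀ a, Rapid (raisonnier {x : ℕ → Bool | (fun n => (x n).toNat) ∈ Lc a})) ∧
        ¬ ∀ a, ∃ d : ℕ → ℕ, ∀ g ∈ Lc a, ∃ N, ∀ n, N ≤ n → g n ≤ d n) := by
  constructor
  · obtain ⟨P, h1, h2, h3, h4⟩ := exists_forcing
    exact ⟨P, h1, h3, h2, h4⟩
  · intro K G hG hK Lc hL hGL
    constructor
    · intro a
      obtain ⟨h, hh⟩ := hL a
      refine rapid_of_slalom hK _ (fun k n => decide (h k n = 1)) fun x hx => ?_
      obtain ⟨k, hk⟩ := hh hx
      refine ⟨k, funext fun n => ?_⟩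
      have h1 : h k n = (x n).toNat := congrFun hk n
      simp only [h1]
      cases x n <;> simp
    · intro hD
      obtain ⟨a, ha⟩ := hGL
      obtain ⟨d, hd⟩ := hD a
      obtain ⟨k, hk⟩ := hG d
      obtain ⟨N, hN⟩ := hd (G k) (ha k)
      obtain ⟨n, hn, hlt⟩ := hk N
      exact absurd (hN n hn) (not_le.2 hlt)

end Pool.Agent.Results.MP_0d94a4_lc.RapidNotDominating
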